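import Pool.Agent.J4H50.YM.Stm

set_option autoImplicit false

/-! # Project YM (helper50): pieces M1 and M2 (helper2) -/

namespace Pool.Agent.J4H2.YM

open Pool.Agent.W574.MO Pool.Agent.J4H50.TF Pool.Agent.J4H50.YO Pool.Agent.J4H50.YM

theorem t_M1 : S_M1 := by
  intro M _ L h a0 n0 a1 n1 Z hZ
  classical
  induction hZ with
  | unit h a0 n0 a1 n1 hh =>
    exact ⟨_, RedZeta.unit h a0 n0 a1 n1 hh, by rw [map_mul, Phi_mf, Phi_mf]⟩
  | curveV h a0 n0 h0 h1 =>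
    exact ⟨_, RedZeta.curveV h a0 n0 h0 h1, by rw [map_mul, Phi_mf, Phi_mf]⟩
  | curveU h a1 n1 h0 h1 =>
    exact ⟨_, RedZeta.curveU h a1 n1 h0 h1, by rw [map_mul, Phi_mf, Phi_mf]⟩
  | blowup h a0 n0 a1 n1 m hm hc hI hhc hhI S h0S hS Zc ZI hz0 hcS hZI ih0 ihc ihI =>
    obtain ⟨Y0, hY0, e0⟩ := ih0
    obtain ⟨YI, hYI, eI⟩ := ihI
    have hch : ∀ c : ℂ, ∃ Y : PowerSeries AA, (c ∈ S → c ≠ 0 →
        RedZeta (mf LL) (PowerSeries.C ((LL : AAˣ) : AA)) (hc c)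
          (a0 + a1 + m) (n0 + n1) 0 1 Y ∧ Phi L Y = Zc c) := by
      intro c
      by_cases hcS : c ∈ S ∧ c ≠ 0
      · obtain ⟨Y, hY, e⟩ := ihc c hcS.1 hcS.2
        exact ⟨Y, fun _ _ => ⟨hY, e⟩⟩
      · exact ⟨0, fun h1 h2 => absurd ⟨h1, h2⟩ hcS⟩
    choose Y hY using hch
    let Yc : ℂ → PowerSeries AA := fun c => if c = 0 then Y0 else Y c
    have hYc : ∀ c ∈ S, Phi L (Yc c) = Zc c := by
      intro c hcS
      by_cases h : c = 0
      · simp only [Yc, if_pos h]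
        rw [h]
        exact e0
      · simp only [Yc, if_neg h]
        exact (hY c hcS h).2
    refine ⟨_, RedZeta.blowup h a0 n0 a1 n1 m hm hc hI hhc hhI S h0S hS Yc YI ?_ ?_ hYI, ?_⟩
    · simp only [Yc, if_pos]
      exact hY0
    · intro c hcS h
      simp only [Yc, if_neg h]
      exact (hY c hcS h).1
    · rw [map_add, map_add, map_sum, eI, Finset.sum_congr rfl hYc, map_mul, Phi_mf,
        map_sub, Phi_C, phi_LL, map_natCast]

theorem t_M2 : S_M2 := by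
  intro M _ L h a0 n0 a1 n1 Z hZ hn0 hn1
  classical
  have hmf : ∀ {a n : ℕ}, 1 ≤ n → mf L a n ∈ DenRing L (fun _ _ => True) :=
    fun hn => mf_mem hn fun _ => trivial
  induction hZ with
  | unit h a0 n0 a1 n1 hh =>
    exact Subring.mul_mem _ (hmf hn0) (hmf hn1)
  | curveV h a0 n0 h0 h1 =>
    exact Subring.mul_mem _ (hmf hn0) (hmf le_rfl)
  | curveU h a1 n1 h0 h1 =>
    exact Subring.mul_mem _ (hmf hn1) (hmf le_rfl)
  | blowup h a0 n0 a1 n1 m hm hc hI hhc hhI S h0S hS Zc ZI hz0 hcS hZI ih0 ihc ihI =>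
    refine Subring.add_mem _ (Subring.add_mem _ (ihI hn0 (by omega)) ?_)
      (Subring.mul_mem _ (Subring.sub_mem _ (C_mem _) (natCast_mem _ _)) (hmf (by omega)))
    refine Subring.sum_mem _ fun c hcS => ?_
    by_cases h : c = 0
    · rw [h]
      exact ih0 (by omega) hn1
    · exact ihc c hcS h (by omega) le_rfl

end Pool.Agent.J4H2.YM
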